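import Mathlib

/-!
# Distributive varieties of Lie algebras which need identities of large degree

Let `F` be a field of characteristic `0`. For every `d` there is a variety of Lie algebras over `F`
whose subvarieties form a chain (so that their lattice is distributive) and which is not defined by
identities of degree at most `d`. For `d = 6` this answers the question of MP_b4a71d_al.

The variety is generated by the filiform Lie algebra `T F c` with basis `x, e 0, ..., e (c - 1)` and
`[x, e j] = e (j + 1)` (here with unused extra central coordinates).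
-/

set_option autoImplicit false

open Polynomial

noncomputable section

namespace Pool.Agent.Results.MP_b4a71d_al.NoDegreeBound

universe u

/-! ### Definitions -/

/-- A Lie algebra over `F`, bundled. -/
structure LieAlg (F : Type u) [Field F] where
  /-- the underlying vector space -/
  carrier : Type u
  /-- the Lie ring structure -/
  [ring : LieRing carrier]
  /-- the Lie algebra structure -/
  [alg : LieAlgebra F carrier]

attribute [instance] LieAlg.ring LieAlg.alg

section defs

variable {F : Type u} [Field F]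

/-- `f` is an identity of `A`: it vanishes under every substitution of elements of `A` for the
free generators `0, 1, 2, ...`. -/
def IsIdentity (f : FreeLieAlgebra F ℕ) (A : LieAlg F) : Prop :=
  ∀ s : ℕ → A.carrier, FreeLieAlgebra.lift F s f = 0

/-- The class of all Lie algebras which satisfy all identities in `S`. -/
def varietyOf (S : Set (FreeLieAlgebra F ℕ)) : Set (LieAlg F) :=
  {A | ∀ f ∈ S, IsIdentity f A}

/-- `V` is a variety. -/
def IsVariety (V : Set (LieAlg F)) : Prop := ∃ S, V = varietyOf S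

/-- The join of two varieties: the smallest variety which contains both. -/
def join (V W : Set (LieAlg F)) : Set (LieAlg F) :=
  ⋂₀ {U | IsVariety U ∧ V ⊆ U ∧ W ⊆ U}

/-- The lattice of the subvarieties of `V`, with intersection and join, is distributive. -/
def IsDistributive (V : Set (LieAlg F)) : Prop :=
  ∀ X Y Z : Set (LieAlg F), IsVariety X → IsVariety Y → IsVariety Z → X ⊆ V → Y ⊆ V → Z ⊆ V →
    X ∩ join Y Z = join (X ∩ Y) (X ∩ Z)

/-- The subvarieties of `V` form a chain. -/
def IsChainVariety (V : Set (LieAlg F)) : Prop :=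
  ∀ X Y : Set (LieAlg F), IsVariety X → IsVariety Y → X ⊆ V → Y ⊆ V → X ⊆ Y ∨ Y ⊆ X

/-- The Lie monomial given by a nonassociative word in the generators. -/
def mon : FreeMagma ℕ → FreeLieAlgebra F ℕ
  | .of i => FreeLieAlgebra.of F i
  | .mul a b => ⁅mon a, mon b⁆

/-- `f` has degree at most `d`: it is a linear combination of Lie monomials of length at most
`d`. -/
def DegreeLE (d : ℕ) (f : FreeLieAlgebra F ℕ) : Prop :=
  f ∈ Submodule.span F (mon '' {w : FreeMagma ℕ | w.length ≤ d})

/-- `V` has a basis of identities of degree at most `d`. -/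
def DefinedInDegree (d : ℕ) (V : Set (LieAlg F)) : Prop :=
  ∃ S : Set (FreeLieAlgebra F ℕ), (∀ f ∈ S, DegreeLE d f) ∧ V = varietyOf S

end defs

/-! ### Evaluation of words -/

section words

variable {F : Type u} [Field F] {A : Type u} [LieRing A] [LieAlgebra F A]

/-- the value of a word -/
def ev (s : ℕ → A) : FreeMagma ℕ → A
  | .of i => s i
  | .mul a b => ⁅ev s a, ev s b⁆

@[simp] theorem ev_of (s : ℕ → A) (i : ℕ) : ev s (.of i) = s i := rfl

@[simp] theorem ev_mul (s : ℕ → A) (a b : FreeMagma ℕ) : ev s (a * b) = ⁅ev s a, ev s b⁆ := rfl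

theorem lift_mon (s : ℕ → A) (w : FreeMagma ℕ) :
    FreeLieAlgebra.lift F s (mon w) = ev s w := by
  induction w with
  | ih1 i => simp [mon, ev]
  | ih2 a b iha ihb =>
    change FreeLieAlgebra.lift F s ⁅mon a, mon b⁆ = ⁅ev s a, ev s b⁆
    rw [LieHom.map_lie, iha, ihb]

theorem bracket_mem_span {x y : FreeLieAlgebra F ℕ}
    (hx : x ∈ Submodule.span F (Set.range (mon : FreeMagma ℕ → FreeLieAlgebra F ℕ)))
    (hy : y ∈ Submodule.span F (Set.range (mon : FreeMagma ℕ → FreeLieAlgebra F ℕ))) :
    ⁅x, y⁆ ∈ Submodule.span F (Set.range (mon : FreeMagma ℕ → FreeLieAlgebra F ℕ)) := by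
  induction hx using Submodule.span_induction with
  | mem x hx =>
    obtain ⟨a, rfl⟩ := hx
    induction hy using Submodule.span_induction with
    | mem y hy =>
      obtain ⟨b, rfl⟩ := hy
      exact Submodule.subset_span ⟨a * b, rfl⟩
    | zero => rw [lie_zero]; exact Submodule.zero_mem _
    | add y z _ _ h1 h2 => rw [lie_add]; exact Submodule.add_mem _ h1 h2
    | smul t y _ h => rw [lie_smul]; exact Submodule.smul_mem _ _ h
  | zero => rw [zero_lie]; exact Submodule.zero_mem _
  | add y z _ _ h1 h2 => rw [add_lie]; exact Submodule.add_mem _ h1 h2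
  | smul t y _ h => rw [smul_lie]; exact Submodule.smul_mem _ _ h

/-- every element of the free Lie algebra is a combination of monomials -/
theorem mem_span_mon (f : FreeLieAlgebra F ℕ) :
    f ∈ Submodule.span F (Set.range (mon : FreeMagma ℕ → FreeLieAlgebra F ℕ)) := by
  let K : LieSubalgebra F (FreeLieAlgebra F ℕ) :=
    { Submodule.span F (Set.range (mon : FreeMagma ℕ → FreeLieAlgebra F ℕ)) with
      lie_mem' := fun hx hy => bracket_mem_span hx hy }
  have hK : ∀ i : ℕ, FreeLieAlgebra.of F i ∈ K := fun i =>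
    Submodule.subset_span ⟨.of i, rfl⟩
  let φ : FreeLieAlgebra F ℕ →ₗ⁅F⁆ K := FreeLieAlgebra.lift F fun i => ⟨_, hK i⟩
  have h : K.incl.comp φ = LieHom.id := by
    refine FreeLieAlgebra.hom_ext fun i => ?_
    simp [φ]
  have h2 : K.incl (φ f) = f := by
    have := congrArg (fun g : FreeLieAlgebra F ℕ →ₗ⁅F⁆ FreeLieAlgebra F ℕ => g f) h
    simpa using this
  rw [← h2]
  exact (φ f).2

theorem exists_repr (f : FreeLieAlgebra F ℕ) :
    ∃ c : FreeMagma ℕ →₀ F, (c.sum fun w a => a • mon w) = f :=
  Finsupp.mem_span_range_iff_exists_finsupp.1 (mem_span_mon f)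

theorem exists_repr_le {d : ℕ} {f : FreeLieAlgebra F ℕ} (hf : DegreeLE d f) :
    ∃ c : FreeMagma ℕ →₀ F, (∀ w ∈ c.support, w.length ≤ d) ∧ (c.sum fun w a => a • mon w) = f := by
  obtain ⟨c, hc, h⟩ := (Finsupp.mem_span_image_iff_linearCombination F).1 hf
  refine ⟨c, fun w hw => ?_, ?_⟩
  · exact (Finsupp.mem_supported F c).1 hc hw
  · rw [← h, Finsupp.linearCombination_apply]

variable (F) in
/-- the identity given by a combination of words -/
def IdC (A : Type u) [LieRing A] [LieAlgebra F A] (c : FreeMagma ℕ →₀ F) : Prop :=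
  ∀ s : ℕ → A, (c.sum fun w a => a • ev s w) = 0

theorem isIdentity_iff (A : LieAlg F) (c : FreeMagma ℕ →₀ F) :
    IsIdentity (c.sum fun w a => a • mon w) A ↔ IdC F A.carrier c := by
  unfold IsIdentity IdC
  refine forall_congr' fun s => ?_
  rw [Finsupp.sum, Finsupp.sum, map_sum]
  simp only [map_smul, lift_mon]

end words

/-! ### Polynomial functions with values in a vector space -/

section poly

variable {F : Type u} [Field F] {A : Type u} [LieRing A] [LieAlgebra F A]

/-- polynomial functions of a scalar -/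
inductive IsPoly (F : Type u) [Field F] {A : Type u} [AddCommGroup A] [Module F A] :
    (F → A) → Prop
  | const (v : A) : IsPoly F (fun _ => v)
  | add (g h : F → A) : IsPoly F g → IsPoly F h → IsPoly F (fun t => g t + h t)
  | mulX (g : F → A) : IsPoly F g → IsPoly F (fun t => t • g t)

theorem IsPoly.lie {g h : F → A} (hg : IsPoly F g) (hh : IsPoly F h) :
    IsPoly F (fun t => ⁅g t, h t⁆) := by
  induction hg with
  | const v =>
    induction hh with
    | const w => exact .const _
    | add g h _ _ h1 h2 => simpa only [lie_add] using h1.add _ _ h2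
    | mulX g _ h1 => simpa only [lie_smul] using h1.mulX _
  | add g h _ _ h1 h2 => simpa only [add_lie] using h1.add _ _ h2
  | mulX g _ h1 => simpa only [smul_lie] using h1.mulX _

theorem IsPoly.dual {g : F → A} (hg : IsPoly F g) (l : A →ₗ[F] F) :
    ∃ P : F[X], ∀ t, l (g t) = P.eval t := by
  induction hg with
  | const v => exact ⟨C (l v), fun t => by simp⟩
  | add g h _ _ h1 h2 =>
    obtain ⟨P, hP⟩ := h1
    obtain ⟨Q, hQ⟩ := h2
    exact ⟨P + Q, fun t => by simp [hP, hQ]⟩
  | mulX g _ h1 =>
    obtain ⟨P, hP⟩ := h1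
    exact ⟨X * P, fun t => by simp [hP]⟩

/-- `g t = v₀ + t v₁ + O(t²)` -/
def Jet (g : F → A) (v₀ v₁ : A) : Prop :=
  ∃ h : F → A, IsPoly F h ∧ ∀ t, g t = v₀ + t • v₁ + (t ^ 2) • h t

theorem Jet.isPoly {g : F → A} {v₀ v₁ : A} (h : Jet g v₀ v₁) : IsPoly F g := by
  obtain ⟨r, hr, h⟩ := h
  have e : g = fun t => (v₀ + t • v₁) + t • (t • r t) := by
    funext t
    rw [h, smul_smul, ← pow_two]
  rw [e]
  exact ((IsPoly.const v₀).add _ _ ((IsPoly.const v₁).mulX _)).add _ _ ((hr.mulX _).mulX _)

theorem Jet.const (v : A) : Jet (F := F) (fun _ => v) v 0 :=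
  ⟨fun _ => 0, .const 0, fun t => by simp⟩

theorem Jet.add {g h : F → A} {a b c d : A} (h1 : Jet g a b) (h2 : Jet h c d) :
    Jet (fun t => g t + h t) (a + c) (b + d) := by
  obtain ⟨r, hr, e1⟩ := h1
  obtain ⟨q, hq, e2⟩ := h2
  refine ⟨fun t => r t + q t, hr.add _ _ hq, fun t => ?_⟩
  simp only [e1, e2, smul_add]
  abel

theorem Jet.mulX {g : F → A} {a b : A} (h1 : Jet g a b) : Jet (fun t => t • g t) 0 a := by
  obtain ⟨r, hr, e1⟩ := h1
  refine ⟨fun t => b + t • r t, (IsPoly.const b).add _ _ (hr.mulX _), fun t => ?_⟩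
  simp only [e1, smul_add, smul_smul, zero_add]
  rw [show t * t ^ 2 = t ^ 2 * t by ring, show t * t = t ^ 2 by ring]
  abel

theorem IsPoly.smulc {g : F → A} (hg : IsPoly F g) (x : F) : IsPoly F (fun t => x • g t) := by
  induction hg with
  | const v => exact .const _
  | add g h _ _ h1 h2 => simpa only [smul_add] using h1.add _ _ h2
  | mulX g _ h1 =>
    have := h1.mulX
    simp only [smul_comm _ x] at this
    exact this

theorem Jet.smulc {g : F → A} {a b : A} (h1 : Jet g a b) (x : F) :
    Jet (fun t => x • g t) (x • a) (x • b) := by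
  obtain ⟨r, hr, e1⟩ := h1
  refine ⟨fun t => x • r t, hr.smulc x, fun t => ?_⟩
  simp only [e1, smul_add]
  rw [smul_comm x t, smul_comm x (t ^ 2)]

theorem Jet.lie {g h : F → A} {a b c d : A} (h1 : Jet g a b) (h2 : Jet h c d) :
    Jet (fun t => ⁅g t, h t⁆) ⁅a, c⁆ (⁅a, d⁆ + ⁅b, c⁆) := by
  have p2 := h2.isPoly
  obtain ⟨r, hr, e1⟩ := h1
  obtain ⟨q, hq, e2⟩ := h2
  refine ⟨fun t => ⁅a, q t⁆ + (⁅b, d + t • q t⁆ + ⁅r t, h t⁆),
    ((IsPoly.const a).lie hq).add _ _ ((((IsPoly.const b).lie
      ((IsPoly.const d).add _ _ (hq.mulX _)))).add _ _ (hr.lie p2)), fun t => ?_⟩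
  have e3 : h t = c + t • (d + t • q t) := by
    rw [e2, smul_add, smul_smul, ← pow_two, add_assoc]
  calc ⁅g t, h t⁆ = ⁅a, h t⁆ + t • ⁅b, h t⁆ + (t ^ 2) • ⁅r t, h t⁆ := by
        rw [e1, add_lie, add_lie, smul_lie, smul_lie]
    _ = (⁅a, c⁆ + t • ⁅a, d⁆ + (t ^ 2) • ⁅a, q t⁆) + t • (⁅b, c⁆ + t • ⁅b, d + t • q t⁆) +
        (t ^ 2) • ⁅r t, h t⁆ := by
        congr 2
        · rw [e2, lie_add, lie_add, lie_smul, lie_smul]
        · rw [e3, lie_add, lie_smul]
    _ = _ := by
        simp only [smul_add, smul_smul, ← pow_two]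
        abel

variable [Infinite F]

theorem Jet.zero {g : F → A} {a b : A} (h1 : Jet g a b) (h : ∀ t, g t = 0) : a = 0 ∧ b = 0 := by
  obtain ⟨r, hr, e1⟩ := h1
  have key : ∀ l : A →ₗ[F] F, l a = 0 ∧ l b = 0 := by
    intro l
    obtain ⟨P, hP⟩ := hr.dual l
    have h2 : C (l a) + X * C (l b) + X ^ 2 * P = 0 := by
      refine Polynomial.funext fun t => ?_
      have h3 := congrArg l (e1 t)
      rw [h t, map_zero, map_add, map_add, map_smul, map_smul, hP] at h3
      simp only [eval_add, eval_mul, eval_C, eval_X, eval_pow, eval_zero]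
      rw [smul_eq_mul, smul_eq_mul] at h3
      exact h3.symm
    have h0 := congrArg (fun P : F[X] => P.coeff 0) h2
    have h1 := congrArg (fun P : F[X] => P.coeff 1) h2
    simp only [coeff_add, coeff_C_zero, mul_coeff_zero, coeff_X_zero, coeff_X_pow, coeff_zero,
      zero_mul, add_zero] at h0
    have e4 : (X ^ 2 * P).coeff 1 = 0 := by
      rw [coeff_X_pow_mul']
      simp
    simp only [coeff_add, coeff_C_succ, coeff_zero] at h1
    rw [e4, coeff_X_mul, coeff_C_zero] at h1
    constructor
    · simpa using h0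
    · simpa using h1
  exact ⟨(Module.forall_dual_apply_eq_zero_iff F a).1 fun l => (key l).1,
    (Module.forall_dual_apply_eq_zero_iff F b).1 fun l => (key l).2⟩

end poly

/-! ### Homogeneous components of identities -/

section homog

variable {F : Type u} [Field F] {A : Type u} [LieRing A] [LieAlgebra F A]

theorem ev_smul (t : F) (s : ℕ → A) (w : FreeMagma ℕ) :
    ev (fun i => t • s i) w = t ^ w.length • ev s w := by
  induction w with
  | ih1 i => simp [FreeMagma.length]
  | ih2 a b iha ihb =>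
    rw [ev_mul, ev_mul, iha, ihb, smul_lie, lie_smul, smul_smul, ← pow_add]
    rfl

/-- the homogeneous component of degree `n` -/
def comp (c : FreeMagma ℕ →₀ F) (n : ℕ) : FreeMagma ℕ →₀ F := c.filter fun w => w.length = n

theorem comp_sum {M : Type u} [AddCommGroup M] [Module F M] (c : FreeMagma ℕ →₀ F) (n : ℕ)
    (g : FreeMagma ℕ → M) : ((comp c n).sum fun w a => a • g w) =
      ∑ w ∈ c.support.filter (fun w => w.length = n), c w • g w := by
  classical
  unfold comp
  rw [Finsupp.sum, Finsupp.support_filter]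
  refine Finset.sum_congr rfl fun w hw => ?_
  rw [Finset.mem_filter] at hw
  rw [Finsupp.filter_apply_pos (fun w : FreeMagma ℕ => w.length = n) c hw.2]

theorem homog [Infinite F] {c : FreeMagma ℕ →₀ F} (h : IdC F A c) (n : ℕ) :
    IdC F A (comp c n) := by
  classical
  intro s
  rw [comp_sum]
  refine (Module.forall_dual_apply_eq_zero_iff F _).1 fun l => ?_
  have hP : (∑ w ∈ c.support, C (c w * l (ev s w)) * X ^ w.length : F[X]) = 0 := by
    refine Polynomial.funext fun t => ?_
    have h1 := congrArg l (h fun i => t • s i)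
    rw [Finsupp.sum, map_sum, map_zero] at h1
    rw [eval_finsetSum, eval_zero, ← h1]
    refine Finset.sum_congr rfl fun w _ => ?_
    rw [ev_smul, map_smul, map_smul]
    simp only [eval_mul, eval_C, eval_pow, eval_X, smul_eq_mul]
    ring
  have h2 := congrArg (fun P : F[X] => P.coeff n) hP
  simp only [finsetSum_coeff, coeff_C_mul_X_pow, coeff_zero] at h2
  rw [map_sum, Finset.sum_filter]
  refine Eq.trans (Finset.sum_congr rfl fun w _ => ?_) h2
  by_cases hw : w.length = n
  · rw [if_pos hw, if_pos hw.symm, map_smul, smul_eq_mul]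
  · rw [if_neg hw, if_neg (fun h => hw h.symm)]

/-- if all components are identities, so is `c` -/
theorem of_comp {c : FreeMagma ℕ →₀ F} (h : ∀ n, IdC F A (comp c n)) : IdC F A c := by
  classical
  intro s
  rw [Finsupp.sum]
  have h1 : ∑ w ∈ c.support, c w • ev s w =
      ∑ n ∈ c.support.image (fun w => w.length),
        ∑ w ∈ c.support.filter (fun w => w.length = n), c w • ev s w := by
    rw [Finset.sum_fiberwise_of_maps_to]
    intro w hw
    exact Finset.mem_image_of_mem _ hw
  rw [h1]
  refine Finset.sum_eq_zero fun n _ => ?_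
  rw [← comp_sum]
  exact h n s

end homog

/-! ### The polynomials attached to words -/

section lamq

variable {F : Type u} [Field F] {M : Type u} [AddCommGroup M] [Module F M]

/-- the value of a word in the abelian Lie algebra `F` -/
def lam (a : ℕ → F) : FreeMagma ℕ → F
  | .of i => a i
  | .mul _ _ => 0

/-- the linear part of the value of a word -/
def QQ (a : ℕ → F) (b : ℕ → M) : FreeMagma ℕ → M
  | .of i => b i
  | .mul u v => lam a u • QQ a b v - lam a v • QQ a b u

@[simp] theorem lam_of (a : ℕ → F) (i : ℕ) : lam a (.of i) = a i := rfl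

@[simp] theorem lam_mul (a : ℕ → F) (u v : FreeMagma ℕ) : lam a (u * v) = 0 := rfl

@[simp] theorem QQ_of (a : ℕ → F) (b : ℕ → M) (i : ℕ) : QQ a b (.of i) = b i := rfl

@[simp] theorem QQ_mul (a : ℕ → F) (b : ℕ → M) (u v : FreeMagma ℕ) :
    QQ a b (u * v) = lam a u • QQ a b v - lam a v • QQ a b u := rfl

theorem QQ_self (a : ℕ → F) (w : FreeMagma ℕ) : QQ a a w = lam a w := by
  induction w with
  | ih1 i => rfl
  | ih2 u v ihu ihv =>
    rw [QQ_mul, ihu, ihv, lam_mul, smul_eq_mul, smul_eq_mul]
    ring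

theorem QQ_map {M' : Type u} [AddCommGroup M'] [Module F M'] (g : M →ₗ[F] M') (a : ℕ → F)
    (b : ℕ → M) (w : FreeMagma ℕ) : g (QQ a b w) = QQ a (fun i => g (b i)) w := by
  induction w with
  | ih1 i => rfl
  | ih2 u v ihu ihv => rw [QQ_mul, QQ_mul, map_sub, map_smul, map_smul, ihu, ihv]

/-- a word of length greater than one has `lam = 0` -/
theorem lam_eq_zero (a : ℕ → F) {w : FreeMagma ℕ} (hw : w.length ≠ 1) : lam a w = 0 := by
  induction w with
  | ih1 i => exact absurd rfl hw
  | ih2 u v _ _ => rfl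

/-- all polynomials of `c` vanish -/
def QZero (c : FreeMagma ℕ →₀ F) : Prop :=
  ∀ a b : ℕ → F, (c.sum fun w x => x • QQ a b w) = 0

end lamq

/-! ### The filiform algebras -/

section filiform

variable (F : Type u) [Field F]

/-- the shift on the coordinates `0, ..., c - 1` -/
def N (c : ℕ) : (ℕ → F) →ₗ[F] (ℕ → F) where
  toFun v j := if 1 ≤ j ∧ j < c then v (j - 1) else 0
  map_add' v w := by
    funext j
    by_cases h : 1 ≤ j ∧ j < c <;> simp [h]
  map_smul' t v := by
    funext j
    by_cases h : 1 ≤ j ∧ j < c <;> simp [h]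

/-- the vector space `F x ⊕ F^ℕ` -/
def T (_c : ℕ) : Type u := F × (ℕ → F)

variable {F} {c : ℕ}

instance : AddCommGroup (T F c) := inferInstanceAs (AddCommGroup (F × (ℕ → F)))

instance : Module F (T F c) := inferInstanceAs (Module F (F × (ℕ → F)))

/-- the first coordinate -/
def p1 (x : T F c) : F := x.1

/-- the second coordinate -/
def p2 (x : T F c) : ℕ → F := x.2

/-- the element with given coordinates -/
def mk (a : F) (v : ℕ → F) : T F c := (a, v)

instance : Bracket (T F c) (T F c) :=
  ⟨fun x y => mk 0 (p1 x • N F c (p2 y) - p1 y • N F c (p2 x))⟩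

omit [Field F] in
@[simp] theorem p1_mk (a : F) (v : ℕ → F) : p1 (mk a v : T F c) = a := rfl
omit [Field F] in
@[simp] theorem p2_mk (a : F) (v : ℕ → F) : p2 (mk a v : T F c) = v := rfl
@[simp] theorem p1_lie (x y : T F c) : p1 ⁅x, y⁆ = 0 := rfl
@[simp] theorem p2_lie (x y : T F c) :
    p2 ⁅x, y⁆ = p1 x • N F c (p2 y) - p1 y • N F c (p2 x) := rfl
@[simp] theorem p1_add (x y : T F c) : p1 (x + y) = p1 x + p1 y := rfl
@[simp] theorem p2_add (x y : T F c) : p2 (x + y) = p2 x + p2 y := rfl
@[simp] theorem p1_smul (t : F) (x : T F c) : p1 (t • x) = t * p1 x := rfl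
@[simp] theorem p2_smul (t : F) (x : T F c) : p2 (t • x) = t • p2 x := rfl
@[simp] theorem p1_zero : p1 (0 : T F c) = 0 := rfl
@[simp] theorem p2_zero : p2 (0 : T F c) = 0 := rfl

omit [Field F] in
theorem T_ext {x y : T F c} (h1 : p1 x = p1 y) (h2 : p2 x = p2 y) : x = y := Prod.ext h1 h2

instance : LieRing (T F c) where
  add_lie x y z := by
    refine T_ext ?_ ?_
    · simp
    · simp only [p2_lie, p2_add, p1_add, map_add, smul_add, add_smul]
      abel
  lie_add x y z := by
    refine T_ext ?_ ?_
    · simp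
    · simp only [p2_lie, p2_add, p1_add, map_add, smul_add, add_smul]
      abel
  lie_self x := by
    refine T_ext ?_ ?_
    · simp
    · simp
  leibniz_lie x y z := by
    refine T_ext ?_ ?_
    · simp
    · simp only [p2_lie, p2_add, p1_lie, map_sub, map_smul, zero_smul, smul_sub, smul_smul]
      rw [mul_comm (p1 z) (p1 x), mul_comm (p1 z) (p1 y), mul_comm (p1 y) (p1 x)]
      abel

instance : LieAlgebra F (T F c) where
  lie_smul t x y := by
    refine T_ext ?_ ?_
    · simp
    · simp only [p2_lie, p2_smul, p1_smul, map_smul, smul_sub, smul_smul]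
      rw [mul_comm (p1 x) t]

theorem N_pow (m : ℕ) (v : ℕ → F) (j : ℕ) (hm : 1 ≤ m) :
    ((N F c ^ m) v) j = if m ≤ j ∧ j < c then v (j - m) else 0 := by
  induction m, hm using Nat.le_induction generalizing j with
  | base => rw [pow_one]; rfl
  | succ m hm ih =>
    rw [pow_succ', Module.End.mul_apply]
    change (if 1 ≤ j ∧ j < c then ((N F c ^ m) v) (j - 1) else 0) = _
    rw [ih]
    by_cases h : m + 1 ≤ j ∧ j < c
    · rw [if_pos h, if_pos (by omega), if_pos (by omega)]
      congr 1
      omega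
    · rw [if_neg h]
      by_cases h2 : 1 ≤ j ∧ j < c
      · rw [if_pos h2, if_neg (by omega)]
      · rw [if_neg h2]

theorem N_pow_ge {m : ℕ} (hm : 1 ≤ m) (hc : c ≤ m) (v : ℕ → F) : (N F c ^ m) v = 0 := by
  funext j
  rw [N_pow m v j hm, if_neg (by omega)]
  rfl

theorem N_pow_single {m : ℕ} (hm : m < c) (x : F) : ((N F c ^ m) (Pi.single 0 x)) m = x := by
  rcases Nat.eq_zero_or_pos m with rfl | h
  · simp
  · rw [N_pow m _ m h, if_pos ⟨le_rfl, hm⟩, Nat.sub_self, Pi.single_eq_same]

/-- the value of a word in `T F c` -/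
theorem ev_T (s : ℕ → T F c) (w : FreeMagma ℕ) :
    ev s w = mk (lam (fun i => p1 (s i)) w)
      ((N F c ^ (w.length - 1)) (QQ (fun i => p1 (s i)) (fun i => p2 (s i)) w)) := by
  induction w with
  | ih1 i => rfl
  | ih2 u v ihu ihv =>
    rw [ev_mul]
    refine T_ext rfl ?_
    rw [p2_lie, ihu, ihv, p1_mk, p2_mk, p1_mk, p2_mk, p2_mk]
    have hu := u.length_pos
    have hv := v.length_pos
    have e : ∀ m : ℕ, ∀ x : ℕ → F, N F c ((N F c ^ m) x) = (N F c ^ (m + 1)) x := by
      intro m x
      rw [pow_succ', Module.End.mul_apply]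
    have hl : (u * v).length = u.length + v.length := rfl
    rw [e, e, QQ_mul, map_sub, map_smul, map_smul, hl]
    congr 1
    · by_cases h : u.length = 1
      · rw [show v.length - 1 + 1 = u.length + v.length - 1 by omega]
      · rw [lam_eq_zero _ h, zero_smul, zero_smul]
    · by_cases h : v.length = 1
      · rw [show u.length - 1 + 1 = u.length + v.length - 1 by omega]
      · rw [lam_eq_zero _ h, zero_smul, zero_smul]

end filiform

/-! ### Identities of the filiform algebras -/

section filid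

variable {F : Type u} [Field F] {m : ℕ}

/-- the first coordinate as a linear map -/
def P1 : T F m →ₗ[F] F where
  toFun := p1
  map_add' _ _ := rfl
  map_smul' _ _ := rfl

/-- the second coordinate as a linear map -/
def P2 : T F m →ₗ[F] (ℕ → F) where
  toFun := p2
  map_add' _ _ := rfl
  map_smul' _ _ := rfl

theorem QZero_vec {c : FreeMagma ℕ →₀ F} (h : QZero c) (a : ℕ → F) (b : ℕ → ℕ → F) :
    (c.sum fun w x => x • QQ a b w) = 0 := by
  funext j
  have h1 := h a fun i => b i j
  rw [Finsupp.sum] at h1 ⊢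
  rw [Finset.sum_apply]
  refine Eq.trans (Finset.sum_congr rfl fun w _ => ?_) h1
  have h2 := QQ_map (LinearMap.proj j : (ℕ → F) →ₗ[F] F) a b w
  change c w • (QQ a b w) j = _
  congr 1

theorem T_id {c : FreeMagma ℕ →₀ F} {n : ℕ} (hn : ∀ w ∈ c.support, w.length = n)
    (h : QZero c) : IdC F (T F m) c := by
  intro s
  rw [Finsupp.sum]
  refine T_ext ?_ ?_
  · change P1 _ = 0
    rw [map_sum]
    refine Eq.trans (Finset.sum_congr rfl fun w _ => ?_)
      (h (fun i => p1 (s i)) (fun i => p1 (s i)))
    rw [map_smul, ev_T]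
    change c w • lam _ w = c w • QQ _ _ w
    rw [QQ_self]
  · change P2 _ = 0
    rw [map_sum]
    have h1 := congrArg (N F m ^ (n - 1)) (QZero_vec h (fun i => p1 (s i)) (fun i => p2 (s i)))
    rw [Finsupp.sum, map_sum, map_zero] at h1
    refine Eq.trans (Finset.sum_congr rfl fun w hw => ?_) h1
    rw [map_smul, map_smul, ev_T]
    change c w • (N F m ^ (w.length - 1)) _ = _
    rw [hn w hw]

theorem QZero_of_T {c : FreeMagma ℕ →₀ F} {n : ℕ} (hn : ∀ w ∈ c.support, w.length = n)
    (hm : n - 1 < m) (h : IdC F (T F m) c) : QZero c := by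
  intro a b
  have h1 := congrArg P2 (h fun i => mk (a i) (Pi.single 0 (b i)))
  rw [Finsupp.sum, map_sum, map_zero] at h1
  have h2 := congrFun h1 (n - 1)
  rw [Finset.sum_apply] at h2
  rw [Finsupp.sum]
  refine Eq.trans (Finset.sum_congr rfl fun w hw => ?_) h2
  rw [map_smul, ev_T]
  change _ = c w • ((N F m ^ (w.length - 1)) (QQ a (fun i => Pi.single 0 (b i)) w)) (n - 1)
  have h3 := QQ_map (LinearMap.single F (fun _ : ℕ => F) 0) a b w
  simp only [LinearMap.coe_single] at h3
  rw [← h3, hn w hw, N_pow_single hm]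

theorem comp_length {c : FreeMagma ℕ →₀ F} {n : ℕ} :
    ∀ w ∈ (comp c n).support, w.length = n := by
  intro w hw
  unfold comp at hw
  rw [Finsupp.support_filter, Finset.mem_filter] at hw
  exact hw.2

end filid

/-! ### The Engel identity -/

section engel

variable {F : Type u} [Field F] {A : Type u} [LieRing A] [LieAlgebra F A]

/-- the iterates of `ad x` -/
def It (x : A) (m : ℕ) (v : A) : A := (fun v => ⁅x, v⁆)^[m] v

theorem It_zero (x v : A) : It x 0 v = v := rfl

theorem It_succ (x : A) (m : ℕ) (v : A) : It x (m + 1) v = It x m ⁅x, v⁆ := rfl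

theorem It_succ' (x : A) (m : ℕ) (v : A) : It x (m + 1) v = ⁅x, It x m v⁆ :=
  Function.iterate_succ_apply' _ _ _

theorem Jet.sum {ι : Type*} (s : Finset ι) (g : ι → F → A) (a b : ι → A)
    (h : ∀ i ∈ s, Jet (g i) (a i) (b i)) :
    Jet (fun t => ∑ i ∈ s, g i t) (∑ i ∈ s, a i) (∑ i ∈ s, b i) := by
  classical
  induction s using Finset.induction_on with
  | empty => simpa using Jet.const (F := F) (0 : A)
  | insert i s hi ih =>
    simp only [Finset.sum_insert hi]
    exact (h i (Finset.mem_insert_self _ _)).add (ih fun j hj => h j (Finset.mem_insert_of_mem hj))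

theorem ev_jet (a b : ℕ → F) (x y : A) (w : FreeMagma ℕ) :
    Jet (fun t : F => ev (fun i => a i • x + t • (b i • y)) w) (lam a w • x)
      (QQ a b w • It x (w.length - 1) y) := by
  induction w with
  | ih1 i =>
    exact ⟨fun _ => 0, .const 0, fun t => by simp [FreeMagma.length, It_zero]⟩
  | ih2 u v ihu ihv =>
    have hu := u.length_pos
    have hv := v.length_pos
    have h := ihu.lie ihv
    have e0 : ⁅lam a u • x, lam a v • x⁆ = lam a (u * v) • x := by
      rw [smul_lie, lie_smul, lie_self, lam_mul, smul_zero, smul_zero, zero_smul]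
    have hl : (u * v).length = u.length + v.length := rfl
    have e1 : ⁅lam a u • x, QQ a b v • It x (v.length - 1) y⁆ +
        ⁅QQ a b u • It x (u.length - 1) y, lam a v • x⁆ =
        QQ a b (u * v) • It x ((u * v).length - 1) y := by
      have e2 : ∀ p q : A, ⁅p, q⁆ = -⁅q, p⁆ := fun p q => (lie_skew p q).symm
      rw [e2 (QQ a b u • It x (u.length - 1) y), smul_lie, lie_smul, smul_lie, lie_smul,
        ← It_succ', ← It_succ', QQ_mul, hl, sub_smul, sub_eq_add_neg, smul_eq_mul, smul_eq_mul,
        mul_smul, mul_smul]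
      congr 1
      · by_cases h : u.length = 1
        · rw [show v.length - 1 + 1 = u.length + v.length - 1 by omega]
        · rw [lam_eq_zero _ h, zero_smul, zero_smul]
      · by_cases h : v.length = 1
        · rw [show u.length - 1 + 1 = u.length + v.length - 1 by omega]
        · rw [lam_eq_zero _ h, zero_smul, zero_smul]
    rw [e0, e1] at h
    exact h

theorem engel_of [Infinite F] {c : FreeMagma ℕ →₀ F} {n : ℕ}
    (hn : ∀ w ∈ c.support, w.length = n) (h : IdC F A c) (hq : ¬ QZero c) (x y : A) :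
    It x (n - 1) y = 0 := by
  unfold QZero at hq
  push Not at hq
  obtain ⟨a, b, hab⟩ := hq
  have h1 := Jet.sum c.support (fun w t => c w • ev (fun i => a i • x + t • (b i • y)) w)
    (fun w => c w • (lam a w • x)) (fun w => c w • (QQ a b w • It x (w.length - 1) y))
    fun w _ => (ev_jet a b x y w).smulc (c w)
  have h2 := (h1.zero fun t => h fun i => a i • x + t • (b i • y)).2
  have h3 : (c.sum fun w z => z • QQ a b w) • It x (n - 1) y = 0 := by
    rw [Finsupp.sum, Finset.sum_smul, ← h2]
    refine Finset.sum_congr rfl fun w hw => ?_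
    rw [hn w hw, smul_smul, smul_eq_mul]
  exact (smul_eq_zero.1 h3).resolve_left hab

/-- all words of length greater than `k` vanish -/
def Nil (k : ℕ) (A : Type u) [LieRing A] : Prop :=
  ∀ w : FreeMagma ℕ, k < w.length → ∀ s : ℕ → A, ev s w = 0

theorem Nil.mono {k l : ℕ} (hkl : k ≤ l) (h : Nil k A) : Nil l A :=
  fun w hw s => h w (by omega) s

/-- elements which commute with all brackets -/
def KK (k : A) : Prop := ∀ u v : A, ⁅⁅u, v⁆, k⁆ = 0

theorem KK.lie {k : A} (hk : KK k) (z : A) : KK ⁅z, k⁆ := by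
  intro u v
  rw [leibniz_lie, hk, hk, lie_zero, add_zero]

theorem KK.comm {k : A} (hk : KK k) (x z : A) : ⁅x, ⁅z, k⁆⁆ = ⁅z, ⁅x, k⁆⁆ := by
  rw [leibniz_lie, hk, zero_add]

theorem KK.it {k : A} (hk : KK k) (x : A) (m : ℕ) : KK (It x m k) := by
  induction m with
  | zero => exact hk
  | succ m ih => rw [It_succ']; exact ih.lie x

theorem KK.it_comm {k : A} (hk : KK k) (x z : A) (m : ℕ) : ⁅z, It x m k⁆ = It x m ⁅z, k⁆ := by
  induction m with
  | zero => rfl
  | succ m ih => rw [It_succ', It_succ', (hk.it x m).comm, ih]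

theorem It_add (x : A) (m : ℕ) (v w : A) : It x m (v + w) = It x m v + It x m w := by
  induction m with
  | zero => rfl
  | succ m ih => rw [It_succ', It_succ', It_succ', ih, lie_add]

theorem It_smul (x : A) (m : ℕ) (t : F) (v : A) : It x m (t • v) = t • It x m v := by
  induction m with
  | zero => rfl
  | succ m ih => rw [It_succ', It_succ', ih, lie_smul]

theorem It_zero' (x : A) (m : ℕ) : It x m (0 : A) = 0 := by
  induction m with
  | zero => rfl
  | succ m ih => rw [It_succ', ih, lie_zero]

theorem It_neg (x : A) (m : ℕ) (v : A) : It x m (-v) = -It x m v := by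
  induction m with
  | zero => rfl
  | succ m ih => rw [It_succ', It_succ', ih, lie_neg]

theorem KK.jet {k : A} (hk : KK k) (x z : A) (m : ℕ) :
    Jet (fun t : F => It (x + t • z) m k) (It x m k) ((m : F) • It x (m - 1) ⁅z, k⁆) := by
  induction m with
  | zero =>
    have := Jet.const (F := F) k
    simpa [It_zero] using this
  | succ m ih =>
    have h0 : Jet (fun t : F => x + t • z) x z := ⟨fun _ => 0, .const 0, fun t => by simp⟩
    have h := h0.lie ih
    have e : ⁅x, (m : F) • It x (m - 1) ⁅z, k⁆⁆ + ⁅z, It x m k⁆ =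
        ((m + 1 : ℕ) : F) • It x (m + 1 - 1) ⁅z, k⁆ := by
      rw [hk.it_comm, lie_smul, ← It_succ', Nat.add_sub_cancel, Nat.cast_add, Nat.cast_one,
        add_smul, one_smul]
      congr 1
      rcases Nat.eq_zero_or_pos m with rfl | hm
      · simp
      · rw [Nat.sub_add_cancel hm]
    rw [e] at h
    simp only [It_succ']
    exact h

variable [CharZero F]

variable (F) in
include F in
/-- the linearised Engel identity -/
theorem base_case (met : ∀ p q r s : A, ⁅⁅p, q⁆, ⁅r, s⁆⁆ = 0) {m : ℕ}
    (h : ∀ x y : A, It x m ⁅x, y⁆ = 0) (x z y : A) : It x m ⁅z, y⁆ = 0 := by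
  rcases Nat.eq_zero_or_pos m with rfl | hm
  · exact h z y
  · have hKK : ∀ p q : A, KK ⁅p, q⁆ := fun p q u v => met u v p q
    have key : ∀ z y : A, (m : F) • It x (m - 1) ⁅z, ⁅x, y⁆⁆ + It x m ⁅z, y⁆ = 0 := by
      intro z y
      have h1 := ((hKK x y).jet (F := F) x z m).add (((hKK z y).jet (F := F) x z m).mulX)
      refine (h1.zero fun t => ?_).2
      have h2 := h (x + t • z) y
      rw [add_lie, smul_lie, It_add, It_smul] at h2
      exact h2
    have e1 := key z y
    have e2 := key y z
    have e3 : It x m ⁅y, z⁆ = -It x m ⁅z, y⁆ := by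
      rw [← It_neg, lie_skew]
    have e4 : It x (m - 1) ⁅z, ⁅x, y⁆⁆ = It x (m - 1) ⁅y, ⁅x, z⁆⁆ + It x m ⁅z, y⁆ := by
      have e5 : ⁅z, ⁅x, y⁆⁆ = ⁅y, ⁅x, z⁆⁆ + ⁅x, ⁅z, y⁆⁆ := by
        rw [leibniz_lie]
        congr 1
        rw [← lie_skew, ← lie_skew x z, lie_neg]
      rw [e5, It_add]
      congr 1
      obtain ⟨l, rfl⟩ : ∃ l, m = l + 1 := ⟨m - 1, by omega⟩
      rfl
    rw [e4, smul_add] at e1
    rw [e3] at e2
    have e6 : ((m : F) + 2) • It x m ⁅z, y⁆ = 0 := by
      have e7 : ((m : F) + 2) • It x m ⁅z, y⁆ =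
          ((m : F) • It x (m - 1) ⁅y, ⁅x, z⁆⁆ + (m : F) • It x m ⁅z, y⁆ + It x m ⁅z, y⁆) -
          ((m : F) • It x (m - 1) ⁅y, ⁅x, z⁆⁆ + -It x m ⁅z, y⁆) := by
        rw [add_smul, two_smul]
        abel
      rw [e7, e1, e2, sub_zero]
    have e8 : ((m : F) + 2) ≠ 0 := by
      have : ((m + 2 : ℕ) : F) ≠ 0 := Nat.cast_ne_zero.2 (by omega)
      push_cast at this
      exact this
    exact (smul_eq_zero.1 e6).resolve_left e8

/-- left normed brackets -/
inductive LN {A : Type u} [LieRing A] : ℕ → A → Prop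
  | base (p q : A) : LN 0 ⁅p, q⁆
  | step (j : ℕ) (x k : A) : LN j k → LN (j + 1) ⁅x, k⁆

theorem LN_zero (j : ℕ) : LN j (0 : A) := by
  induction j with
  | zero => simpa using LN.base (0 : A) 0
  | succ j ih => simpa using LN.step j 0 0 ih

theorem LN_word (met : ∀ p q r s : A, ⁅⁅p, q⁆, ⁅r, s⁆⁆ = 0) (s : ℕ → A) (w : FreeMagma ℕ) :
    ∀ j : ℕ, w.length = j + 2 → LN j (ev s w) := by
  induction w with
  | ih1 i =>
    intro j hj
    change 1 = j + 2 at hj
    omega
  | ih2 u v ihu ihv =>
    intro j hj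
    change u.length + v.length = j + 2 at hj
    rw [ev_mul]
    have hu := u.length_pos
    have hv := v.length_pos
    rcases j with _ | j
    · exact LN.base _ _
    · by_cases h1 : u.length = 1
      · exact LN.step j _ _ (ihv j (by omega))
      · by_cases h2 : v.length = 1
        · have h3 : ⁅ev s u, ev s v⁆ = ⁅-ev s v, ev s u⁆ := by rw [neg_lie, lie_skew]
          rw [h3]
          exact LN.step j _ _ (ihu j (by omega))
        · have h3 : ∀ w : FreeMagma ℕ, w.length ≠ 1 → ∃ p q : A, ev s w = ⁅p, q⁆ := by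
            intro w hw
            induction w with
            | ih1 i => exact absurd rfl hw
            | ih2 a b _ _ => exact ⟨_, _, rfl⟩
          obtain ⟨p, q, e1⟩ := h3 u h1
          obtain ⟨r, t, e2⟩ := h3 v h2
          rw [e1, e2, met]
          exact LN_zero _

variable (F) in
include F in
theorem engel_nil (met : ∀ p q r s : A, ⁅⁅p, q⁆, ⁅r, s⁆⁆ = 0) {n : ℕ} (hn : 1 ≤ n)
    (h : ∀ x y : A, It x (n - 1) y = 0) : Nil (n - 1) A := by
  rcases Nat.eq_or_lt_of_le hn with rfl | hn2
  · intro w _ s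
    exact h 0 (ev s w)
  · obtain ⟨m, rfl⟩ : ∃ m, n = m + 2 := ⟨n - 2, by omega⟩
    have hb : ∀ x z y : A, It x m ⁅z, y⁆ = 0 := base_case F met h
    have main : ∀ (j : ℕ) (v : A), LN j v → KK v ∧ ∀ x : A, It x (m - j) v = 0 := by
      intro j v hv
      induction hv with
      | base p q => exact ⟨fun u v => met u v p q, fun x => hb x p q⟩
      | step j z k _ ih =>
        obtain ⟨hk, ih⟩ := ih
        refine ⟨hk.lie z, fun x => ?_⟩
        rcases Nat.eq_zero_or_pos (m - j) with h0 | h0
        · have h1 := ih x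
          rw [h0, It_zero] at h1
          rw [h1, lie_zero, It_zero']
        · have h1 := ((hk.jet (F := F) x z (m - j)).zero fun t => ih (x + t • z)).2
          have h2 : ((m - j : ℕ) : F) ≠ 0 := Nat.cast_ne_zero.2 (by omega)
          have h3 := (smul_eq_zero.1 h1).resolve_left h2
          rw [show m - (j + 1) = m - j - 1 by omega]
          exact h3
    intro w hw s
    obtain ⟨j, hj⟩ : ∃ j, w.length = j + 2 := ⟨w.length - 2, by omega⟩
    have h1 := (main j _ (LN_word met s w j hj)).2 0
    rw [show m - j = 0 by omega, It_zero] at h1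
    exact h1

end engel

/-! ### The varieties -/

section varieties

variable (F : Type u) [Field F]

/-- the filiform algebra, bundled -/
def TA (c : ℕ) : LieAlg F := ⟨T F c⟩

/-- the variety generated by the filiform algebra `T F c` -/
def VV (c : ℕ) : Set (LieAlg F) := varietyOf {f | IsIdentity f (TA F c)}

variable {F} {c : ℕ}

theorem TA_mem : TA F c ∈ VV F c := fun _ hf => hf

theorem VV_id {A : LieAlg F} (hA : A ∈ VV F c) {f : FreeMagma ℕ →₀ F}
    (hf : IdC F (T F c) f) : IdC F A.carrier f :=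
  (isIdentity_iff A f).1 (hA _ ((isIdentity_iff (TA F c) f).2 hf))

theorem IdC_single {A : Type u} [LieRing A] [LieAlgebra F A] (w : FreeMagma ℕ) :
    IdC F A (Finsupp.single w 1) ↔ ∀ s : ℕ → A, ev s w = 0 := by
  unfold IdC
  refine forall_congr' fun s => ?_
  rw [Finsupp.sum_single_index (by simp), one_smul]

theorem nil_T (hc : 1 ≤ c) : Nil c (T F c) := by
  intro w hw s
  rw [ev_T, lam_eq_zero _ (by omega), N_pow_ge (by omega) (by omega)]
  rfl

theorem VV_nil {A : LieAlg F} (hc : 1 ≤ c) (hA : A ∈ VV F c) : Nil c A.carrier := fun w hw =>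
  (IdC_single w).1 (VV_id hA ((IdC_single w).2 (nil_T hc w hw)))

theorem met_T (p q r s : T F c) : ⁅⁅p, q⁆, ⁅r, s⁆⁆ = 0 := by
  refine T_ext ?_ ?_
  · simp only [p1_lie, p1_zero]
  · simp only [p2_lie, p1_lie, zero_smul, sub_zero, p2_zero]

theorem VV_met {A : LieAlg F} (hA : A ∈ VV F c) (p q r s : A.carrier) :
    ⁅⁅p, q⁆, ⁅r, s⁆⁆ = 0 := by
  have h1 : IdC F (T F c) (Finsupp.single
      ((FreeMagma.of 0 * FreeMagma.of 1) * (FreeMagma.of 2 * FreeMagma.of 3)) 1) :=
    (IdC_single _).2 fun s => by
      simp only [ev_mul, ev_of]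
      exact met_T _ _ _ _
  have h2 := (IdC_single _).1 (VV_id hA h1)
    (fun i => if i = 0 then p else if i = 1 then q else if i = 2 then r else s)
  simpa using h2

variable [CharZero F]

theorem sub_eq (hc : 1 ≤ c) {X : Set (LieAlg F)} (hX : IsVariety X) (hXV : X ⊆ VV F c) :
    ∃ k, X = {A | A ∈ VV F c ∧ Nil k A.carrier} := by
  classical
  have hex : ∃ k, ∀ A ∈ X, Nil k A.carrier := ⟨c, fun A hA => VV_nil hc (hXV hA)⟩
  refine ⟨Nat.find hex, Set.Subset.antisymm (fun A hA => ⟨hXV hA, Nat.find_spec hex A hA⟩) ?_⟩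
  rintro B ⟨hB, hBk⟩
  obtain ⟨S, rfl⟩ := hX
  intro f hf
  obtain ⟨g, rfl⟩ := exists_repr f
  rw [isIdentity_iff]
  refine of_comp fun n => ?_
  by_cases hn : Nat.find hex < n
  · intro s
    rw [Finsupp.sum]
    refine Finset.sum_eq_zero fun w hw => ?_
    rw [hBk w (by rw [comp_length w hw]; exact hn) s, smul_zero]
  · by_cases hq : QZero (comp g n)
    · exact VV_id hB (T_id comp_length hq)
    · exfalso
      have hn1 : 1 ≤ n := by
        by_contra hn0
        apply hq
        intro a b
        rw [Finsupp.sum]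
        refine Finset.sum_eq_zero fun w hw => ?_
        have h1 := comp_length w hw
        have h2 := w.length_pos
        omega
      have h1 : ∀ A ∈ varietyOf S, Nil (n - 1) A.carrier := by
        intro A hA
        have h2 : IdC F A.carrier g := (isIdentity_iff A g).1 (hA _ hf)
        exact engel_nil F (VV_met (hXV hA)) hn1 (engel_of comp_length (homog h2 n) hq)
      exact Nat.find_min hex (m := n - 1) (by omega) h1

theorem chain (hc : 1 ≤ c) : IsChainVariety (VV F c) := by
  intro X Y hX hY hXV hYV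
  obtain ⟨k, hk⟩ := sub_eq hc hX hXV
  obtain ⟨l, hl⟩ := sub_eq hc hY hYV
  rcases le_total k l with h | h
  · left
    rw [hk, hl]
    exact fun A hA => ⟨hA.1, hA.2.mono h⟩
  · right
    rw [hk, hl]
    exact fun A hA => ⟨hA.1, hA.2.mono h⟩

end varieties

section lattice

variable {F : Type u} [Field F]

theorem isVariety_inter {X Y : Set (LieAlg F)} (hX : IsVariety X) (hY : IsVariety Y) :
    IsVariety (X ∩ Y) := by
  obtain ⟨S, rfl⟩ := hX
  obtain ⟨R, rfl⟩ := hY
  refine ⟨S ∪ R, Set.Subset.antisymm ?_ ?_⟩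
  · rintro A ⟨h1, h2⟩ f (hf | hf)
    · exact h1 f hf
    · exact h2 f hf
  · intro A h
    exact ⟨fun f hf => h f (Or.inl hf), fun f hf => h f (Or.inr hf)⟩

theorem join_eq_right {Y Z : Set (LieAlg F)} (hZ : IsVariety Z) (h : Y ⊆ Z) : join Y Z = Z := by
  refine Set.Subset.antisymm (Set.sInter_subset_of_mem ⟨hZ, h, subset_rfl⟩) ?_
  exact Set.subset_sInter fun U hU => hU.2.2

theorem join_eq_left {Y Z : Set (LieAlg F)} (hY : IsVariety Y) (h : Z ⊆ Y) : join Y Z = Y := by
  refine Set.Subset.antisymm (Set.sInter_subset_of_mem ⟨hY, subset_rfl, h⟩) ?_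
  exact Set.subset_sInter fun U hU => hU.2.1

theorem distributive_of_chain {V : Set (LieAlg F)} (hV : IsChainVariety V) :
    IsDistributive V := by
  intro X Y Z hX hY hZ _ hYV hZV
  rcases hV Y Z hY hZ hYV hZV with h | h
  · rw [join_eq_right hZ h,
      join_eq_right (isVariety_inter hX hZ) (Set.inter_subset_inter_right X h)]
  · rw [join_eq_left hY h,
      join_eq_left (isVariety_inter hX hY) (Set.inter_subset_inter_right X h)]

/-- the word `[0, [0, ..., [0, 1]]]` -/
def W : ℕ → FreeMagma ℕ
  | 0 => .of 1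
  | m + 1 => .of 0 * W m

theorem W_length (m : ℕ) : (W m).length = m + 1 := by
  induction m with
  | zero => rfl
  | succ m ih =>
    change 1 + (W m).length = m + 2
    rw [ih]
    omega

theorem not_nil_T (c : ℕ) : ¬ Nil c (T F (c + 1)) := by
  intro h
  have h1 := h (W c) (by rw [W_length]; omega)
    (fun i => if i = 0 then mk 1 0 else mk 0 (Pi.single 0 1))
  rw [ev_T] at h1
  have h2 : ∀ m, lam (fun i => p1 ((if i = 0 then mk 1 0 else mk 0 (Pi.single 0 1) :
      T F (c + 1)))) (W m) = 0 ∧
      QQ (fun i => p1 ((if i = 0 then mk 1 0 else mk 0 (Pi.single 0 1) : T F (c + 1))))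
        (fun i => p2 ((if i = 0 then mk 1 0 else mk 0 (Pi.single 0 1) : T F (c + 1)))) (W m) =
        Pi.single 0 1 := by
    intro m
    induction m with
    | zero => exact ⟨by simp [W], by simp [W]⟩
    | succ m ih =>
      refine ⟨rfl, ?_⟩
      change QQ _ _ (.of 0 * W m) = _
      rw [QQ_mul, ih.1, ih.2]
      simp
  rw [(h2 c).2, W_length, Nat.add_sub_cancel] at h1
  have h3 := congrFun (congrArg p2 h1) c
  rw [p2_mk, N_pow_single (by omega)] at h3
  simp at h3

theorem not_defined [CharZero F] {d c : ℕ} (hdc : d ≤ c) (hc : 1 ≤ c) :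
    ¬ DefinedInDegree d (VV F c) := by
  rintro ⟨S, hS, hV⟩
  have h1 : TA F (c + 1) ∈ VV F c := by
    rw [hV]
    intro f hf
    have h2 : TA F c ∈ varietyOf S := hV ▸ TA_mem
    have h3 := h2 f hf
    obtain ⟨g, hg, rfl⟩ := exists_repr_le (hS f hf)
    rw [isIdentity_iff] at h3 ⊢
    refine of_comp fun n => T_id comp_length ?_
    by_cases hn : n ≤ d
    · exact QZero_of_T (m := c) comp_length (by omega) (homog h3 n)
    · intro a b
      rw [Finsupp.sum]
      refine Finset.sum_eq_zero fun w hw => ?_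
      exfalso
      have h4 := comp_length w hw
      have h5 : w ∈ g.support := by
        unfold comp at hw
        rw [Finsupp.support_filter, Finset.mem_filter] at hw
        exact hw.1
      have h6 := hg w h5
      omega
  exact not_nil_T c (VV_nil hc h1)

end lattice

/-- **Theorem.** Let `F` be a field of characteristic zero and `d` a natural number. There is a
variety of Lie algebras over `F` whose subvarieties form a chain, so that the lattice of its
subvarieties is distributive, and which has no basis of identities of degree at most `d`. -/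
theorem result : ∀ (F : Type u) [Field F] [CharZero F] (d : ℕ),
    ∃ V : Set (LieAlg F), IsVariety V ∧ IsDistributive V ∧ IsChainVariety V ∧
      ¬ DefinedInDegree d V := by
  intro F _ _ d
  exact ⟨VV F (d + 1), ⟨_, rfl⟩, distributive_of_chain (chain (by omega)), chain (by omega),
    not_defined (by omega) (by omega)⟩

end Pool.Agent.Results.MP_b4a71d_al.NoDegreeBound
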